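import Mathlib
import Pool.Agent.H297R2.OneSided

/-!
# A fixed transcendental number has large degree over `ℚ̄(w)`, `w` a generic logarithm

Let `l_1, ..., l_m` be `ℚ`-linearly independent logarithms of algebraic numbers with `m > D`, and
let `t` be any transcendental number (for instance another logarithm of an algebraic number). For
all vectors `a` of algebraic numbers (in particular of integers) outside a hypersurface, `t` is not
algebraic of degree `≤ D` over the field generated over `ℚ̄` by `w = ∑_j a_j l_j`: there is no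
nonzero polynomial `P(X, Y)` of degree `≤ D` in `X` and arbitrary degree in `Y` with `P(t, w) = 0`.
-/

namespace Pool.Agent.Results.MP_60829e_nt.GenericOneSided

open Pool.Agent.H297R2 Polynomial Bivariate

/-- **Main result.** -/
theorem result (D m : ℕ) (hD : D < m) (l : Fin m → ℂ)
    (halg : ∀ j, IsAlgebraic ℚ (Complex.exp (l j))) (hli : LinearIndependent ℚ l) (t : ℂ)
    (ht : Transcendental ℚ t) :
    ∃ Δ : MvPolynomial (Fin m) (algebraicClosure ℚ ℂ), Δ ≠ 0 ∧
      ∀ a : Fin m → algebraicClosure ℚ ℂ, MvPolynomial.eval a Δ ≠ 0 →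
        ∀ P : (algebraicClosure ℚ ℂ)[X][Y], P ≠ 0 → (swap P).natDegree ≤ D →
          aevalAeval t (∑ j, (a j : ℂ) * l j) P ≠ 0 := by
  have ht' : Transcendental (algebraicClosure ℚ ℂ) t := by
    intro h
    have hQalg : Algebra.IsAlgebraic ℚ (algebraicClosure ℚ ℂ) := algebraicClosure.isAlgebraic ℚ ℂ
    exact ht (h.restrictScalars ℚ)
  obtain ⟨Δ, h1, h2⟩ := generic_one_sided D m hD l halg hli t ht'
  refine ⟨Δ, h1, fun a ha P hP0 hPD hP => h2 a ha ?_⟩
  exact ⟨swap P, swap_ne_zero hP0, hPD, by rw [aevalAeval_swap]; exact hP⟩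

end Pool.Agent.Results.MP_60829e_nt.GenericOneSided
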